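import Pool.Agent.H80.E4

/-!
# Condition `C(N,n)` and representations of bounded degree of subgroups of bounded index

Problem MP_322c76_al (Q1).  `powSub G n` is the subgroup `G^n` generated by the `n`-th powers and
`CondC a N n` is the condition `C(N,n)` for the generating family `a`.
-/

namespace Pool.Agent.Results.MP_322c76_al.BoundedDegree

open Pool.Agent.H80.E2 Pool.Agent.H80.E4

universe u v

/-- **Result.** For all `k`, `n ≥ 1`, `M`, `r` there is `N` such that for every (finite or
infinite) group `G` generated by `k` elements and satisfying `C(N,n)`, every subgroup `H` of index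
at most `M` contains `G^n`, and every homomorphism from `H` to `GL_r(R)`, `R` a commutative ring,
is trivial on `G^n`. -/
theorem result (k n M r : ℕ) (hn : 0 < n) :
    ∃ N : ℕ, ∀ (G : Type u) [Group G] (a : Fin k → G),
      Subgroup.closure (Set.range a) = ⊤ → CondC a N n →
        ∀ H : Subgroup G, H.index ≠ 0 → H.index ≤ M →
          powSub G n ≤ H ∧
          ∀ (R : Type v) [CommRing R] (ρ : H →* Matrix.GeneralLinearGroup (Fin r) R) (x : H),
            (x : G) ∈ powSub G n → ρ x = 1 :=
  thmA hn M r

end Pool.Agent.Results.MP_322c76_al.BoundedDegree
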